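import Pool.Agent.P.MP_9167e9_an.Locn.Base

/-! LOCN, part 2: locations are coarsely Lipschitz, contracting and close to the fine position. -/

noncomputable section
open scoped Classical

namespace Pool.Agent.P.MP_9167e9_an
namespace Locn

variable {P : Prm} {F : Set (Cell P)} {c : Cell P} {hc : c ∈ F}
  {w : WS (PP F) (Wall (adj F) (ZMod P.h)) (PC F)}

/-- The location of a good lift all of whose walls are labelled near `γ₀`. -/
theorem claim (I : PInst (F := F) w) (Br : BrOut F c hc w) (G2 : Gam2 F c)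
    (tri : ∀ a b e, dC c.τ a e ≤ dC c.τ a b + dC c.τ b e) {γ₀ γ : Gam F} {x : PP F}
    {y y₀ : c.V × ZMod 2} {ρ M : ℕ}
    (hM : ∀ γ' y', dG F γ₀ γ' ≤ ρ → NP F c γ' y' → dC c.τ y' y₀ ≤ M)
    (hx : w.Good (pcl F c hc 1 1) x) (hγ : dG F γ₀ γ ≤ ρ)
    (hW : ∀ a ∈ w.WB (pcl F c hc 1 1) x, dG F γ₀ a.1.1 ≤ ρ)
    (hy : LocP F c (γ, cls F c x) y) : dC c.τ y y₀ ≤ 12 * c.L + M := by
  rcases (w.WB (pcl F c hc 1 1) x).eq_empty_or_nonempty with h | ⟨a', ha'⟩
  · obtain ⟨l, h1, h2, -⟩ := Br.word x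
    rw [h, Finset.card_empty, List.length_eq_zero_iff] at h2
    rw [h1, h2, prodL_nil] at hy
    have := hM γ y hγ (loc_one hy)
    omega
  · obtain ⟨a, h1, h2⟩ := I.out.bot_ex _ x a' ha'
    have h3 := h2 x ha'
    obtain ⟨y', hy'⟩ := G2.np_ex a.1.1
    have h4 := Br.lemP γ x y y' a (Finset.mem_filter.2 ⟨h3, h1⟩) hx hy hy'
    have h5 := hM _ y' (hW a h3) hy'
    have h6 := tri y y' y₀
    omega

/-- Two good lifts with a common wall have close locations. -/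
theorem common (I : PInst (F := F) w) (Br : BrOut F c hc w) (G2 : Gam2 F c)
    (tri : ∀ a b e, dC c.τ a e ≤ dC c.τ a b + dC c.τ b e)
    (sym : ∀ a b, dC c.τ a b = dC c.τ b a) {γ γ' : Gam F} {x x' : PP F} {y y' : c.V × ZMod 2}
    (hx : w.Good (pcl F c hc 1 1) x) (hx' : w.Good (pcl F c hc 1 1) x')
    (h : ∃ a, a ∈ w.WB (pcl F c hc 1 1) x ∧ a ∈ w.WB (pcl F c hc 1 1) x')
    (hy : LocP F c (γ, cls F c x) y) (hy' : LocP F c (γ', cls F c x') y') :
    dC c.τ y y' ≤ 24 * c.L := by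
  obtain ⟨a', h1, h2⟩ := h
  obtain ⟨a, h3, h4⟩ := I.out.bot_ex _ x a' h1
  obtain ⟨e, he⟩ := G2.np_ex a.1.1
  have h5 := Br.lemP γ x y e a (Finset.mem_filter.2 ⟨h4 x h1, h3⟩) hx hy he
  have h6 := Br.lemP γ' x' y' e a (Finset.mem_filter.2 ⟨h4 x' h2, h3⟩) hx' hy' he
  have h7 := tri y e y'
  rw [sym e y'] at h7
  omega

/-- One move: either the locations are close or all walls are labelled near the position. -/
theorem move (I : PInst (F := F) w) (Br : BrOut F c hc w) (G1 : Gam1 F) (G2 : Gam2 F c)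
    (tri : ∀ a b e, dC c.τ a e ≤ dC c.τ a b + dC c.τ b e)
    (sym : ∀ a b, dC c.τ a b = dC c.τ b a) {t δ : ℕ} (hδ : ∀ e ∈ F, e.gP ≤ 20 * t → e.sz ≤ δ)
    {z z' : Zm F c} {y y' : c.V × ZMod 2} (h : Cl (am F c) t z z') (hy : LocP F c z y)
    (hy' : LocP F c z' y') :
    dC c.τ y y' ≤ 24 * c.L ∨
      ((∃ l, z.2 = cls F c (prodL F l) ∧ l.length ≤ 2 * t + 2 * t * δ ∧
          ∀ e ∈ l, dG F z.1 e.1.1 ≤ t + 2 * t * δ) ∧
        ∀ y₀ M, (∀ γ' e, dG F z.1 γ' ≤ t + 2 * t * δ → NP F c γ' e → dC c.τ e y₀ ≤ M) →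
          dC c.τ y y' ≤ 24 * c.L + 2 * M) := by
  obtain ⟨γ, n⟩ := z
  obtain ⟨γ', n'⟩ := z'
  obtain ⟨l, hl⟩ := Br.mw_ex n
  obtain ⟨hmin, -, -⟩ := Br.mw_min n l hl
  have hn : n = cls F c (prodL F l) := hl.1
  subst hn
  obtain ⟨h1, x', h2, h3, h4⟩ := Br.move t γ _ _ h
  dsimp only at h1 h2
  obtain ⟨x'', h5, h6, h7⟩ := proc (c := c) I G1 _ γ _ x' t t δ hmin h3 h4 hδ
  rw [h2, ← h5] at hy'
  have hg := I.out.min_good _ _ hmin
  rcases h7 with h7 | ⟨h7, h8, h9⟩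
  · exact Or.inl (common I Br G2 tri sym hg h6 h7 hy hy')
  · refine Or.inr ⟨?_, fun y₀ M hM => ?_⟩
    · obtain ⟨l', e1, e2, e3⟩ := Br.word (prodL F l)
      refine ⟨l', e1, e2.trans_le h9, fun e he => ?_⟩
      obtain ⟨a, ha, hae⟩ := e3 e he
      rw [← hae]
      exact h7 a ha
    · have h0 : dG F γ γ ≤ t + 2 * t * δ := by
        have := G1.dG_le γ 1
        rw [map_one, one_mul] at this
        exact this.trans (by simp [nr])
      have a1 := claim I Br G2 tri hM hg h0 h7 hy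
      have a2 := claim I Br G2 tri hM h6 (h1.trans (Nat.le_add_right _ _)) h8 hy'
      have a3 := tri y y₀ y'
      rw [sym y₀ y'] at a3
      omega

theorem small (N : NumAdm F) (hc : c ∈ F) {n : ℕ} (hn : n < c.g ^ 4) :
    ∀ e ∈ F, e.gP ≤ n → e.sz ≤ c.δ0 := fun e he h => by
  refine N.small c hc e he (lt_of_not_ge fun h1 => ?_)
  have := N.bigP c hc e he h1
  omega

theorem g4 (hR : 1000 ≤ c.R) : 80 * c.R ^ 7 < c.g ^ 4 := by
  have h1 : c.R ^ 7 ≤ c.R ^ 15 := Nat.pow_le_pow_right (by omega) (by norm_num)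
  have h2 : 0 < c.R ^ 7 := by positivity
  have h3 : c.g ≤ c.g ^ 4 := Nat.le_self_pow (by norm_num) _
  have h4 : c.g = 10 ^ 4 * c.R ^ 15 := rfl
  omega

theorem pw_le {R : ℕ} (hR : 1000 ≤ R) {a b : ℕ} (h : a < b) : 1000 * R ^ a ≤ R ^ b := by
  calc 1000 * R ^ a ≤ R * R ^ a := Nat.mul_le_mul_right _ hR
    _ = R ^ (a + 1) := by ring
    _ ≤ R ^ b := Nat.pow_le_pow_right (by omega) h

end Locn

open Locn in
theorem pLocn (hPW : StPW) (hBr : StBr) (hG1 : StGam1) (hG2 : StGam2) (hNum : StNum)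
    (hNear : StNearG) : StLocn := by
  intro P F hF c hc
  obtain ⟨w, I⟩ := hPW P F hF
  have Br := hBr P F hF c hc w I
  have G1 := hG1 P F hF
  have G2 := hG2 P F hF c hc
  have N := hNum P F hF
  have Nr := hNear P F hF c hc
  have hR := (hF.ok c hc).R_big
  have hδ := (N.one c hc).δ0_le
  have tri : ∀ a b e, dC c.τ a e ≤ dC c.τ a b + dC c.τ b e := fun a b e => by
    rw [← G1.pos_d c hc, ← G1.pos_d c hc, ← G1.pos_d c hc]
    exact G1.dG_tri _ _ _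
  have sym : ∀ a b, dC c.τ a b = dC c.τ b a := fun a b => by
    rw [← G1.pos_d c hc, ← G1.pos_d c hc]
    exact G1.dG_symm _ _
  refine ⟨loc_ex G2 Br.mw_ex, fun p hp Φ hΦ h γ n y hy => loc_equi G1 G2 hc hp hΦ.1 h γ n y hy,
    fun z z' y y' h hy hy' => ?_, fun r => ?_, fun a y hy => G2.np_pos a y (loc_one hy),
    fun z y hz hy => ?_⟩
  · have h1 : 20 * (2 * c.R) < c.g ^ 4 := by
      have := g4 hR
      have := pw_le hR (a := 1) (b := 7) (by norm_num)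
      rw [pow_one] at this
      omega
    rcases move I Br G1 G2 tri sym (small N hc h1) h hy hy' with h2 | ⟨-, h2⟩
    · omega
    · obtain ⟨y₀, h0⟩ := G2.np_ex z.1
      have h3 : 2 * c.R + 2 * (2 * c.R) * c.δ0 ≤ c.R ^ 12 := by
        have a1 := pw_le hR (a := 1) (b := 2) (by norm_num)
        have a2 := pw_le hR (a := 2) (b := 12) (by norm_num)
        have a3 : 2 * (2 * c.R) * c.δ0 ≤ 4 * c.R ^ 2 := by nlinarith
        rw [pow_one] at a1
        omega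
      have := h2 y₀ (2 * c.L) fun γ' e h4 h5 => by
        rw [sym]
        exact G2.lip _ _ _ _ (h4.trans h3) h0 h5
      omega
  · obtain ⟨δ, hδ'⟩ := N.fin (20 * r)
    obtain ⟨D, hD⟩ := G2.contr (r + 2 * r * δ)
    refine (fin_near (c := c) G1 hF.prime.ne_zero D (r + 2 * r * δ)
      (2 * r + 2 * r * δ)).subset ?_
    rintro z ⟨z', y, y', h, hy, hy', hlt⟩
    rcases move I Br G1 G2 tri sym (fun e he h1 => hδ' e he (Or.inr h1)) h hy hy' with
      h2 | ⟨h2, h3⟩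
    · omega
    · obtain ⟨y₀, h0⟩ := G2.np_ex z.1
      refine ⟨⟨y₀, le_of_not_gt fun h4 => ?_⟩, h2⟩
      have := h3 y₀ c.L fun γ' e h5 h6 => by
        rw [sym]
        exact hD _ _ _ _ h4 h5 h0 h6
      omega
  · obtain ⟨γ, n⟩ := z
    obtain ⟨⟨y₁, h1⟩, l, h2, h3, h4⟩ := hz
    dsimp only at h1 h2 h4
    obtain ⟨hmin, hcard, -⟩ := Br.mw_min _ _ mw_nil
    rw [prodL_nil] at hmin hcard
    have h5 : 20 * (4 * c.R ^ 7) < c.g ^ 4 := by
      have := g4 hR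
      omega
    obtain ⟨x, h6, h7, h8⟩ := proc (c := c) I G1 _ γ 1 (prodL F l) (4 * c.R ^ 7) (3 * c.R ^ 3)
      c.δ0 hmin ((d_prodL I l).trans h3)
      (W_prodL I {f | dG F γ f.1 ≤ 3 * c.R ^ 3} l h4) (small N hc h5)
    rw [List.length_nil, Finset.card_eq_zero] at hcard
    rcases h8 with ⟨a, ha, -⟩ | ⟨-, h8, -⟩
    · rw [hcard] at ha
      simp at ha
    obtain ⟨y₀, h0⟩ := G2.np_ex γ
    have h9 : 3 * c.R ^ 3 + 2 * (4 * c.R ^ 7) * c.δ0 ≤ c.R ^ 12 := by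
      have a1 := pw_le hR (a := 3) (b := 8) (by norm_num)
      have a2 := pw_le hR (a := 8) (b := 12) (by norm_num)
      have a3 : 2 * (4 * c.R ^ 7) * c.δ0 ≤ 8 * c.R ^ 8 := by
        calc 2 * (4 * c.R ^ 7) * c.δ0 ≤ 2 * (4 * c.R ^ 7) * c.R := Nat.mul_le_mul_left _ hδ
          _ = 8 * c.R ^ 8 := by ring
      omega
    have h10 : dG F γ γ ≤ c.R ^ 12 := by
      have := G1.dG_le γ 1
      rw [map_one, one_mul] at this
      exact this.trans (by simp [nr])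
    have hy2 : LocP F c (γ, cls F c x) y := by rw [h6, ← h2]; exact hy
    have b1 := claim I Br G2 tri (M := 2 * c.L) (y₀ := y₀)
      (fun γ' e h11 h12 => by rw [sym]; exact G2.lip _ _ _ _ h11 h0 h12) h7 h10
      (fun a ha => (h8 a ha).trans h9) hy2
    have b2 := Nr.qf_d (γ, n) y₁
    have b3 := h0 y₁
    have b4 := G1.dG_tri (pos F c y₀) γ (pos F c (qf F c (γ, n)))
    rw [G1.pos_d c hc, G1.dG_symm _ γ] at b4
    have b5 := tri y y₀ (qf F c (γ, n))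
    have b6 : 1000 * c.R ^ 3 ≤ c.L := pw_le hR (by norm_num)
    dsimp only at b2
    omega

end Pool.Agent.P.MP_9167e9_an
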