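import Pool.Agent.P.MP_9167e9_an.StG

/-! LOCN, part 1: elementary facts, equivariance and the process in the graph product. -/

noncomputable section
open scoped Classical

namespace Pool.Agent.P.MP_9167e9_an
namespace Locn

variable {P : Prm} {F : Set (Cell P)} {c : Cell P}

theorem prodL_nil : prodL F [] = 1 := by simp [prodL]

theorem prodL_cons (e : Lm F × ZMod P.h) (l : List (Lm F × ZMod P.h)) :
    prodL F (e :: l) = lmp (adj F) e.1 e.2 * prodL F l := by simp [prodL]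

theorem mw_nil : MW F c (cls F c 1) [] := ⟨by rw [prodL_nil], fun _ _ => Nat.zero_le _⟩

theorem loc_one {γ : Gam F} {y : c.V × ZMod 2} (h : LocP F c (γ, cls F c 1) y) :
    NP F c γ y := by
  rcases h with h | ⟨l, e, h, -⟩
  · exact h.2
  · have := h.2 [] (by rw [prodL_nil])
    simp at this

theorem loc_ex (G2 : Gam2 F c) (hm : ∀ z, ∃ l, MW F c z l) (z : Zm F c) : ∃ y, LocP F c z y := by
  obtain ⟨l, hl⟩ := hm z.2
  rcases List.eq_nil_or_concat l with rfl | ⟨l', e, rfl⟩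
  · obtain ⟨y, hy⟩ := G2.np_ex z.1
    exact ⟨y, Or.inl ⟨by rw [hl.1, prodL_nil], hy⟩⟩
  · obtain ⟨y, hy⟩ := G2.np_ex e.1.1
    exact ⟨y, Or.inr ⟨l', e, by simpa using hl, hy⟩⟩

/-! ### Equivariance -/

/-- The shift of a lamp entry. -/
def sh (δ : Gam F) (e : Lm F × ZMod P.h) : Lm F × ZMod P.h := ((e.1.1 * δ, e.1.2), e.2)

theorem sh_sh (δ : Gam F) (e : Lm F × ZMod P.h) : sh δ (sh δ⁻¹ e) = e := by
  simp [sh]

theorem phi_prodL {δ : Gam F} {Φ : NN F →* NN F}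
    (h : ∀ f a, Φ (lampN F f a) = lampN F (f.1 * δ, f.2) a) (l : List (Lm F × ZMod P.h)) :
    Φ (mkN F (prodL F l)) = mkN F (prodL F (l.map (sh δ))) := by
  induction l with
  | nil => simp [prodL_nil]
  | cons e l ih =>
    rw [List.map_cons, prodL_cons, prodL_cons, map_mul, map_mul, map_mul, ih]
    congr 1
    exact h e.1 e.2

theorem As_eq : As F c = Subgroup.closure {n | ∃ f ∈ EP F c 1, ∃ a, n = lampN F f a} := by
  unfold As Par
  rw [MonoidHom.map_closure]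
  congr 1
  ext n
  constructor
  · rintro ⟨x, ⟨f, hf, a, rfl⟩, rfl⟩
    exact ⟨f, hf, a, rfl⟩
  · rintro ⟨f, hf, a, rfl⟩
    exact ⟨_, ⟨f, hf, a, rfl⟩, rfl⟩

theorem EP_shift (G1 : Gam1 F) (hc : c ∈ F) {p : FreeGroup P.S} (hp : p ∈ c.Pg) (f : Lm F) :
    f ∈ EP F c 1 ↔ (f.1 * mkG F p, f.2) ∈ EP F c 1 := by
  have h1 := G1.EP_mul c 1 (mkG F p) f
  have h2 := G1.EP_P c hc p hp 1
  rw [one_mul] at h1
  rw [mul_one] at h2
  rw [h1, h2]

theorem phi_As (G1 : Gam1 F) (hc : c ∈ F) {p : FreeGroup P.S} (hp : p ∈ c.Pg)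
    {Φ : NN F →* NN F} (hi : Function.Injective Φ)
    (h : ∀ f a, Φ (lampN F f a) = lampN F (f.1 * mkG F p, f.2) a) (n : NN F) :
    Φ n ∈ As F c ↔ n ∈ As F c := by
  have hm : (As F c).map Φ = As F c := by
    rw [As_eq, MonoidHom.map_closure]
    congr 1
    ext m
    constructor
    · rintro ⟨x, ⟨f, hf, a, rfl⟩, rfl⟩
      exact ⟨_, (EP_shift G1 hc hp f).1 hf, a, h f a⟩
    · rintro ⟨f, hf, a, rfl⟩
      refine ⟨_, ⟨(f.1 * (mkG F p)⁻¹, f.2), ?_, a, rfl⟩, ?_⟩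
      · rw [EP_shift G1 hc hp]
        simpa using hf
      · rw [h]
        simp
  conv_lhs => rw [← hm]
  exact Subgroup.mem_map_iff_mem hi

theorem phi_eq (G1 : Gam1 F) (hc : c ∈ F) {p : FreeGroup P.S} (hp : p ∈ c.Pg)
    {Φ : NN F →* NN F} (hi : Function.Injective Φ)
    (h : ∀ f a, Φ (lampN F f a) = lampN F (f.1 * mkG F p, f.2) a) (n m : NN F) :
    (QuotientGroup.mk (Φ n) : NN F ⧸ As F c) = QuotientGroup.mk (Φ m) ↔
      (QuotientGroup.mk n : NN F ⧸ As F c) = QuotientGroup.mk m := by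
  rw [QuotientGroup.eq, QuotientGroup.eq, ← map_inv, ← map_mul, phi_As G1 hc hp hi h]

theorem loc_equi (G1 : Gam1 F) (G2 : Gam2 F c) (hc : c ∈ F) {p : FreeGroup P.S} (hp : p ∈ c.Pg)
    {Φ : NN F →* NN F} (hi : Function.Injective Φ)
    (h : ∀ f a, Φ (lampN F f a) = lampN F (f.1 * mkG F p, f.2) a) (γ : Gam F) (n : NN F)
    (y : c.V × ZMod 2) (hy : LocP F c (γ, QuotientGroup.mk n) y) :
    LocP F c (γ * mkG F p, QuotientGroup.mk (Φ n)) (y.1, y.2 + pr p) := by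
  rcases hy with ⟨h1, h2⟩ | ⟨l, e, ⟨h1, h2⟩, h3⟩
  · refine Or.inl ⟨?_, G2.np_P p hp _ _ h2⟩
    have h3 := (phi_eq G1 hc hp hi h n (mkN F 1)).2 h1
    simpa [cls] using h3
  · refine Or.inr ⟨l.map (sh (mkG F p)), sh (mkG F p) e, ⟨?_, fun l' hl' => ?_⟩,
      G2.np_P p hp _ _ h3⟩
    · have h4 := (phi_eq G1 hc hp hi h n _).2 h1
      rw [phi_prodL h, List.map_append] at h4
      exact h4
    · have h4 : l' = (l'.map (sh (mkG F p)⁻¹)).map (sh (mkG F p)) := by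
        rw [List.map_map]
        conv_lhs => rw [← List.map_id l']
        exact List.map_congr_left fun a _ => (sh_sh _ a).symm
      have h5 : (QuotientGroup.mk (Φ n) : NN F ⧸ As F c) =
          QuotientGroup.mk (Φ (mkN F (prodL F (l'.map (sh (mkG F p)⁻¹))))) := by
        rw [phi_prodL h, ← h4]
        exact hl'
      have h6 := h2 _ ((phi_eq G1 hc hp hi h _ _).1 h5)
      simpa using h6

/-! ### The process -/

variable {w : WS (PP F) (Wall (adj F) (ZMod P.h)) (PC F)}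

theorem aw_fst (I : PInst (F := F) w) (a : Wall (adj F) (ZMod P.h)) (k : PP F) :
    (w.aw a k).1 = a.1 := by
  obtain ⟨f, q⟩ := a
  induction q using Quotient.inductionOn with
  | h x =>
    have := congrArg Sigma.fst (I.gp.aw_eq f x k)
    exact this

theorem cls_mul {k : PP F} (hk : k ∈ KP F) (y : PP F) : cls F c (y * k) = cls F c y := by
  have : mkN F k = 1 := (QuotientGroup.eq_one_iff k).2 hk
  unfold cls
  rw [map_mul, this, mul_one]

theorem proc (I : PInst (F := F) w) (G1 : Gam1 F) (B : PC F) (γ : Gam F) (x y : PP F)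
    (t ρ δ : ℕ) (hx : w.Min B x) (hd : w.d x y ≤ t) (hW : ∀ a ∈ w.W x y, dG F γ a.1.1 ≤ ρ)
    (hδ : ∀ e ∈ F, e.gP ≤ 20 * t → e.sz ≤ δ) :
    ∃ y', cls F c y' = cls F c y ∧ w.Good B y' ∧ ((∃ a, a ∈ w.WB B x ∧ a ∈ w.WB B y') ∨
      ((∀ a ∈ w.WB B x, dG F γ a.1.1 ≤ ρ + 2 * t * δ) ∧
        (∀ a ∈ w.WB B y', dG F γ a.1.1 ≤ ρ + 2 * t * δ) ∧
        (w.WB B x).card ≤ 2 * t + 2 * t * δ)) := by
  obtain ⟨k, hk, h1, h2, h3, h4, -⟩ := I.out.process B x y t δ
    (fun i a => dG F γ a.1.1 ≤ ρ + i * δ) hx hd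
    (fun i a h => h.trans (by rw [Nat.add_mul]; omega))
    (fun i a k _ h => by rw [aw_fst I]; exact h) (fun a ha => by simpa using hW a ha)
    (fun Q hQ => by
      obtain ⟨⟨e, T, U⟩, he, δ', q, hT, hU⟩ := Q
      rw [I.g_eq] at hQ
      have hs : e.sz ≤ δ := hδ e he hQ
      refine ⟨by rw [I.δ_eq]; exact hs, fun i a a' ha hn ha' => ?_⟩
      rw [I.cell_eq] at ha ha'
      dsimp only at ha ha' hU he
      rw [hU, I.gp.cross] at ha ha'
      have h5 := G1.EP_diam e he δ' _ ha.1 _ ha'.1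
      have h6 := G1.dG_tri γ a.1.1 a'.1.1
      rw [Nat.add_mul]
      omega)
  rw [I.KK_eq] at hk
  refine ⟨y * k, cls_mul hk y, h1, ?_⟩
  by_cases hcm : ∃ a, a ∈ w.WB B x ∧ a ∈ w.WB B (y * k)
  · exact Or.inl hcm
  · refine Or.inr ⟨fun a ha => ?_, fun a ha => ?_, ?_⟩
    · by_contra hn
      exact hcm ⟨a, ha, h2 a ha hn⟩
    · exact (h3 a ha).resolve_left fun h => hcm ⟨a, h, ha⟩
    · refine le_trans (Finset.card_le_card fun a ha => ?_) h4
      simp only [Finset.mem_sdiff]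
      exact ⟨ha, fun h => hcm ⟨a, ha, h⟩⟩

theorem d_prodL (I : PInst (F := F) w) (l : List (Lm F × ZMod P.h)) :
    w.d 1 (prodL F l) ≤ l.length := by
  induction l with
  | nil => rw [prodL_nil, (I.pre.d_zero 1 1).2 rfl]; exact Nat.zero_le _
  | cons e l ih =>
    have h1 := I.pre.d_tri 1 (prodL F l) (prodL F (e :: l))
    have h2 : w.d (prodL F l) (prodL F (e :: l)) ≤ 1 := by
      rw [prodL_cons]
      by_cases h : e.2 = 0
      · have h3 := I.gp.lmp_add e.1 (0 : ZMod P.h) 0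
        rw [add_zero] at h3
        rw [h, left_eq_mul.1 h3, one_mul, (I.pre.d_zero _ _).2 rfl]
        exact Nat.zero_le _
      · unfold PreWS.d
        rw [I.gp.W_lmp _ _ _ h, Finset.card_singleton]
    rw [List.length_cons]
    omega

theorem W_prodL (I : PInst (F := F) w) (T : Set (Lm F)) (l : List (Lm F × ZMod P.h))
    (h : ∀ e ∈ l, e.1 ∈ T) : ∀ a ∈ w.W 1 (prodL F l), a.1 ∈ T := by
  rw [← I.gp.supp, one_mul]
  refine Subgroup.inv_mem _ (Subgroup.list_prod_mem _ fun x hx => ?_)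
  obtain ⟨e, he, rfl⟩ := List.mem_map.1 hx
  exact Subgroup.subset_closure ⟨e.1, h e he, e.2, rfl⟩

/-! ### Finiteness -/

theorem fin_free (A : Type) [Finite A] (n : ℕ) : {a : FreeGroup A | nr a ≤ n}.Finite := by
  have h := List.finite_length_le (A × Bool) n
  refine (h.image FreeGroup.mk).subset fun a ha => ?_
  exact ⟨@FreeGroup.toWord A (Classical.decEq A) a, ha, @FreeGroup.mk_toWord A (Classical.decEq A) a⟩

theorem fin_ball (G1 : Gam1 F) (γ : Gam F) (n : ℕ) : {γ' | dG F γ γ' ≤ n}.Finite := by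
  refine ((fin_free P.S n).image fun a => mkG F a * γ).subset fun γ' h => ?_
  obtain ⟨a, h1, h2⟩ := G1.dG_ex γ γ'
  exact ⟨a, h1.trans_le h, h2.symm⟩

theorem fin_lists {A : Type} {T : Set A} (hT : T.Finite) (n : ℕ) :
    {l : List A | l.length ≤ n ∧ ∀ e ∈ l, e ∈ T}.Finite := by
  have := hT.to_subtype
  refine ((List.finite_length_le T n).image (List.map Subtype.val)).subset fun l hl => ?_
  refine ⟨l.pmap Subtype.mk hl.2, by simpa using hl.1, ?_⟩
  simp [List.map_pmap]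

theorem fin_near (G1 : Gam1 F) (hh : P.h ≠ 0) (D ρ n : ℕ) :
    {z : Zm F c | (∃ y, dG F z.1 (pos F c y) ≤ D) ∧ ∃ l, z.2 = cls F c (prodL F l) ∧
      l.length ≤ n ∧ ∀ e ∈ l, dG F z.1 e.1.1 ≤ ρ}.Finite := by
  have : NeZero P.h := ⟨hh⟩
  have h1 : (⋃ y : c.V × ZMod 2, {γ | dG F (pos F c y) γ ≤ D}).Finite :=
    Set.finite_iUnion fun y => fin_ball G1 _ _
  have h2 : ∀ γ : Gam F, {e : Lm F × ZMod P.h | dG F γ e.1.1 ≤ ρ}.Finite := fun γ =>
    (((fin_ball G1 γ ρ).prod (Set.finite_univ (α := P.S))).prod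
      (Set.finite_univ (α := ZMod P.h))).subset fun e he => ⟨⟨he, trivial⟩, trivial⟩
  refine (h1.biUnion fun γ _ => (fin_lists (h2 γ) n).image
    fun l => ((γ, cls F c (prodL F l)) : Zm F c)).subset ?_
  rintro ⟨γ, m⟩ ⟨⟨y, hy⟩, l, hl1, hl2, hl3⟩
  refine Set.mem_biUnion (x := γ) (Set.mem_iUnion.2 ⟨y, ?_⟩) ⟨l, ⟨hl2, hl3⟩, ?_⟩
  · rw [G1.dG_symm] at hy
    exact hy
  · dsimp only at hl1 ⊢
    rw [hl1]

end Locn
end Pool.Agent.P.MP_9167e9_an
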